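import Mathlib

set_option autoImplicit false
open Finset

namespace Pool.Agent.Results.MP_6677ae_co.Counter

variable {n : ℕ}

/-- One application of the spread rule. -/
noncomputable def spread (p : ℝ) (E : Finset (Finset (Fin n))) (F : Finset (Fin n)) :
    Finset (Fin n) :=
  F ∪ (E.filter fun e => ⌈p * e.card⌉₊ ≤ (e ∩ F).card).biUnion id

/-- The burning set after r rounds when u 0, u 1, ... are chosen. -/
noncomputable def fire (p : ℝ) (E : Finset (Finset (Fin n))) (u : ℕ → Fin n) :
    ℕ → Finset (Fin n)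
  | 0 => ∅
  | r + 1 => spread p E (fire p E u r) ∪ {u r}

noncomputable def b (p : ℝ) (E : Finset (Finset (Fin n))) : ℕ :=
  sInf {k | ∃ u : ℕ → Fin n, (∀ r < k, u r ∉ fire p E u r) ∧ fire p E u k = univ}

noncomputable def bL (p : ℝ) (E : Finset (Finset (Fin n))) : ℕ :=
  sInf {k | ∃ S : Finset (Fin n), S.card = k ∧ ∃ t, (spread p E)^[t] S = univ}

def H : Finset (Finset (Fin 5)) := {{0, 1, 2}, {0, 1, 3, 4}}

def sp (c : ℕ) (F : Finset (Fin 5)) : Finset (Fin 5) :=
  F ∪ (H.filter fun e => e.card ≤ c * (e ∩ F).card).biUnion id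

theorem sp_eq (c : ℕ) (hc : 0 < c) : spread (1 / c) H = sp c := by
  funext F
  have : (0 : ℝ) < c := by positivity
  simp only [spread, sp, Nat.ceil_le, one_div_mul_eq_div, div_le_iff₀' this]
  norm_cast

theorem lazy (c : ℕ) (hc : c = 3 ∨ c = 4) : bL (1 / c) H = 1 := by
  rw [bL, sp_eq c (by omega)]
  refine IsLeast.csInf_eq ⟨⟨{0}, rfl, 2, by rcases hc with rfl | rfl <;> decide⟩, ?_⟩
  rintro _ ⟨S, rfl, t, h⟩
  by_contra e
  rw [card_eq_zero.mp (by omega : S.card = 0), Function.iterate_fixed
    (by rcases hc with rfl | rfl <;> decide)] at h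
  exact absurd h (by decide)

theorem result : ¬ ∀ (n : ℕ) (E : Finset (Finset (Fin n))) (p q : ℝ), 0 < n → 0 < p → p < 1 →
    0 < q → q < 1 → bL p E = bL q E → b p E = b q E := by
  intro h
  have := h 5 H (1 / (4 : ℕ)) (1 / (3 : ℕ)) (by norm_num) (by norm_num) (by norm_num) (by norm_num)
    (by norm_num) (by rw [lazy 4 (by simp), lazy 3 (by simp)])
  have h1 : b (1 / (4 : ℕ)) H ≤ 2 := Nat.sInf_le ⟨id ∘ fun r => if r = 0 then 0 else 1, fun r hr => by
    interval_cases r <;> simp only [fire, sp_eq 4 (by omega)] <;> decide, by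
      simp only [fire, sp_eq 4 (by omega)]; decide⟩
  have h2 : 3 ≤ b (1 / (3 : ℕ)) H := by
    refine le_csInf ⟨3, fun r => if r = 0 then 0 else if r = 1 then 1 else 3, fun r hr => by
      interval_cases r <;> simp only [fire, sp_eq 3 (by omega)] <;> decide, by
        simp only [fire, sp_eq 3 (by omega)]; decide⟩ ?_
    rintro k ⟨u, -, e⟩
    by_contra c
    have : k < 3 := by omega
    interval_cases k <;> simp only [fire, sp_eq 3 (by omega)] at e <;> revert e
    · decide
    · generalize u 0 = x; revert x; decide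
    · generalize u 0 = x; generalize u 1 = y; revert x y; decide
  omega

end Pool.Agent.Results.MP_6677ae_co.Counter
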